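import Pool.Agent.W23.DC.Defs

namespace Pool.Agent.W120.DC

open Finset
open Pool.Agent.W23.DC

theorem LN_a (P : Finset ℕ) (t : ℕ → ℝ) (A : Finset ℕ) (G : ℕ → ℕ → ℝ) (k : ℕ) :
    ∀ (b : Bool) (τ ζ : ℝ) (d : ℕ),
      LL P t (fun e => ∑ a ∈ A, G a e) k b τ ζ d = ∑ a ∈ A, LL P t (G a) k b τ ζ d := by
  induction k with
  | zero =>
    intro b τ ζ d
    cases b <;> simp [LL]
  | succ k ih =>
    intro b τ ζ d
    cases b
    · simp only [LL]
      rw [Finset.sum_sub_distrib, Finset.sum_comm]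
      congr 1
      exact Finset.sum_congr rfl (fun p _ => ih _ _ _ _)
    · simp only [LL]
      rw [Finset.sum_sub_distrib, Finset.sum_comm]
      congr 1
      exact Finset.sum_congr rfl (fun p _ => ih _ _ _ _)

theorem LN_b (P : Finset ℕ) (t : ℕ → ℝ) (x : ℝ) (G₁ G₂ : ℕ → ℝ) (k : ℕ) :
    ∀ (b : Bool) (τ ζ : ℝ) (d : ℕ), LL P t (fun e => x * G₁ e + G₂ e) k b τ ζ d =
        x * LL P t G₁ k b τ ζ d + LL P t G₂ k b τ ζ d := by
  induction k with
  | zero =>
    intro b τ ζ d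
    cases b <;> simp [LL]
  | succ k ih =>
    intro b τ ζ d
    cases b
    · simp only [LL]
      rw [Finset.sum_congr rfl (fun p _ => ih _ _ _ _), Finset.sum_add_distrib, ← Finset.mul_sum]
      ring
    · simp only [LL]
      rw [Finset.sum_congr rfl (fun p _ => ih _ _ _ _), Finset.sum_add_distrib, ← Finset.mul_sum]
      ring

theorem LN_c (P : Finset ℕ) (t : ℕ → ℝ) (hs : Siz P t) (g G : ℕ → ℝ)
    (hG : ∀ d, ∀ p ∈ P, ¬ p ∣ d → G (d * p) = G d * g p) (k : ℕ) :
    ∀ (b : Bool) (τ ζ : ℝ) (d : ℕ),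
      (∀ p ∈ P, t p < ζ → ¬ p ∣ d) → LL P t G k b τ ζ d = G d * MM P t g k b τ ζ := by
  induction k with
  | zero =>
    intro b τ ζ d _
    cases b <;> simp [LL, MM]
  | succ k ih =>
    intro b τ ζ d hd
    have key : ∀ p ∈ P, t p < ζ → ∀ (b' : Bool) (τ' : ℝ),
        LL P t G k b' τ' (t p) (d * p) = G d * (g p * MM P t g k b' τ' (t p)) := by
      intro p hp htp b' τ'
      rw [ih b' τ' (t p) (d * p), hG d p hp (hd p hp htp)]
      · ring
      · intro q hq hqp hdv
        rcases (Nat.Prime.dvd_mul (hs.pr q hq)).1 hdv with h | h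
        · exact hd q hq (hqp.trans htp) h
        · rw [Nat.prime_dvd_prime_iff_eq (hs.pr q hq) (hs.pr p hp)] at h
          subst h
          exact lt_irrefl _ hqp
    cases b
    · simp only [LL, MM]
      rw [mul_sub, mul_one, Finset.mul_sum]
      congr 1
      refine Finset.sum_congr rfl (fun p hp => ?_)
      rw [Finset.mem_filter] at hp
      exact key p hp.1 hp.2 _ _
    · simp only [LL, MM]
      rw [mul_sub, mul_one, Finset.mul_sum]
      congr 1
      refine Finset.sum_congr rfl (fun p hp => ?_)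
      rw [Finset.mem_filter] at hp
      exact key p hp.1 hp.2.1 _ _

theorem LN : St_LN :=
  ⟨fun P t A G k b τ ζ d => LN_a P t A G k b τ ζ d,
   fun P t x G₁ G₂ k b τ ζ d => LN_b P t x G₁ G₂ k b τ ζ d,
   fun P t hs g G hG k b τ ζ d hd => LN_c P t hs g G hG k b τ ζ d hd⟩

end Pool.Agent.W120.DC
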